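import Mathlib

namespace Pool.Agent.Results.MP_c4e411_nt.Counterexample

/-- The `i`-th elementary symmetric polynomial of the entries of `x`. -/
def sigma {n : ℕ} (i : ℕ) (x : Fin n → ℕ) : ℕ :=
  ∑ s ∈ Finset.powersetCard i (Finset.univ : Finset (Fin n)), ∏ j ∈ s, x j

/-- The conjectured bounds fail: `n = 11`, `x = (1, 1, 1, 1, 1, 1, 1, 2, 10, 126, 16177)`. -/
theorem result : ¬ ∀ (n : ℕ) (x : Fin n → ℕ), 4 ≤ n → (∀ i, 0 < x i) → Monotone x →
    sigma 3 x = sigma n x →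
    ((sigma n x : ℚ) ≤ (1 / 12) * (3021 * (n : ℚ) ^ 6 - 77575 * n ^ 5 + 920361 * n ^ 4
        - 6235705 * n ^ 3 + 24764202 * n ^ 2 - 53664304 * n + 48986640) ∧
      ∀ i, (x i : ℚ) ≤ (1 / 12) * (27 * (n : ℚ) ^ 4 - 190 * n ^ 3 + 471 * n ^ 2 - 500 * n + 216)) := by
  intro h
  have e3 : sigma 3 ![1, 1, 1, 1, 1, 1, 1, 2, 10, 126, 16177] = 40766040 := by decide +kernel
  have e11 : sigma 11 ![1, 1, 1, 1, 1, 1, 1, 2, 10, 126, 16177] = 40766040 := by decide +kernel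
  have := (h 11 ![1, 1, 1, 1, 1, 1, 1, 2, 10, 126, 16177] (by norm_num) (by decide)
    (by decide) (e3.trans e11.symm)).1
  rw [e11] at this
  norm_num at this

end Pool.Agent.Results.MP_c4e411_nt.Counterexample
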